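import Pool.Agent.Helper50.HY.Stmts2

/-!
# HY, rows BRG and KLC: the interface of part B
-/

set_option autoImplicit false

namespace Pool.Agent.Helper50.HY

open MeasureTheory Filter Pool.Agent.Helper95 Pool.Agent.Helper95.PW Pool.Agent.Helper95.LN

theorem brg_kin {n : ℕ} (u : Wf n) : 0 ≤ kin u := by
  unfold kin PW.sq
  refine Finset.sum_nonneg fun k _ => Finset.sum_nonneg fun i _ =>
    Finset.sum_nonneg fun s _ => integral_nonneg fun x => sq_nonneg _

theorem brg_sq {n : ℕ} (u : Wf n) : 0 ≤ PW.sq u := by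
  unfold PW.sq
  exact Finset.sum_nonneg fun s _ => integral_nonneg fun x => sq_nonneg _

theorem brg_card {n M : ℕ} {Z : Fin M → ℝ} (h : Nuc n Z) (hZ : ∀ j, Z j = 1) : M = n := by
  have h1 := h.2
  simp only [hZ, Finset.sum_const, Finset.card_univ, Fintype.card_fin, nsmul_eq_mul,
    mul_one] at h1
  exact_mod_cast h1

theorem brg_HLS (h : ST_HLS) : HS.ST_HLS := by
  obtain ⟨C, hC, H⟩ := h
  refine ⟨4 * C, by positivity, ?_⟩
  intro d n M X u hd hS hu
  have hd0 : 0 < d := by linarith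
  have h1 := H n M X d u hd0 hS hu
  have h2 := brg_kin u
  have h3 := brg_sq u
  have h4 : 0 ≤ (n : ℝ) * PW.sq u := mul_nonneg (Nat.cast_nonneg _) h3
  have h5 : C / d ^ 2 ≤ C / d := by
    refine div_le_div_of_nonneg_left hC.le hd0 ?_
    nlinarith
  have h6 : C / d ^ 2 * (n * PW.sq u) ≤ C / d * (n * PW.sq u) :=
    mul_le_mul_of_nonneg_right h5 h4
  have h7 : 0 ≤ C / d * kin u := mul_nonneg (div_nonneg hC.le hd0.le) h2
  have h8 : 4 * C / d * (kin u + n * PW.sq u) =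
      4 * (C / d * kin u) + 4 * (C / d * (n * PW.sq u)) := by ring
  rw [h8]
  linarith

theorem brg_EBH (h : ST_EBH) : HS.ST_EBH := by
  intro δ hδ
  obtain ⟨d0, hd0, H⟩ := h δ hδ
  refine ⟨max d0 1, le_max_right _ _, ?_⟩
  intro n M X Z E hN hZ hS hL
  have hM := brg_card hN hZ
  subst hM
  have hZ' : Z = fun _ => (1 : ℝ) := funext hZ
  subst hZ'
  have h1 := H M X E (fun i j hij => by
    have h2 := hS i j hij
    have h3 := le_max_left d0 1
    linarith) hL
  linarith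

theorem BRG (h1 : ST_HLS) (h2 : ST_EBH) : ST_BRG := ⟨brg_HLS h1, brg_EBH h2⟩

theorem KLC (h1 : ST_KLG) (h2 : ST_EBH) (h3 : ST_APXM) (h4 : ST_LMTM) : ST_KLC := by
  intro δ hδ
  obtain ⟨d0, η, hd0, hη, H⟩ := h1 δ hδ
  obtain ⟨d1, hd1, H1⟩ := h2 η hη
  refine ⟨max d0 d1, hd0.trans (le_max_left _ _), ?_⟩
  intro n M X Z E φ G hn hN hZ hS hG
  have hM := brg_card hN hZ
  subst hM
  have hZ' : Z = fun _ => (1 : ℝ) := funext hZ
  subst hZ'
  have e1 := H1 M X E (fun i j hij => by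
    have h2 := hS i j hij
    have h3 := le_max_right d0 d1
    linarith) hG.low
  obtain ⟨u, hu⟩ := h3 M M X (fun _ => (1 : ℝ)) E φ G hG
  obtain ⟨l1, l2, _⟩ := h4 M M X (fun _ => (1 : ℝ)) E φ G u hG hu
  obtain ⟨hsm, _, _, _, hres⟩ := hu
  have a1 : ∀ᶠ j in atTop, 1 - η ≤ PW.sq (u j) := l1.eventually_const_le (by linarith)
  have a2 : ∀ᶠ j in atTop, PW.sq (u j) ≤ 1 + η := l1.eventually_le_const (by linarith)
  have a3 : ∀ᶠ j in atTop, resM X (fun _ => (1 : ℝ)) E (u j) ≤ η :=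
    hres.eventually_le_const hη
  refine ge_of_tendsto l2 ?_
  filter_upwards [a1, a2, a3] with j b1 b2 b3
  exact H M M X E (max d0 d1) (u j) hn (le_max_left _ _) hN hS (by linarith) (hsm j).1 b1 b2 b3

end Pool.Agent.Helper50.HY
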