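import Pool.Agent.Helper50.HY.PartA0
import Pool.Agent.Helper24.HY.TRO

/-!
# HY: assembly of part A
-/

set_option autoImplicit false

namespace Pool.Agent.Helper50.HY

open MeasureTheory Filter Pool.Agent.Helper95 Pool.Agent.Helper95.PW Pool.Agent.Helper95.LN

theorem partA (HA3 : ST_HA3) (TRE : ST_TRE) (ES1X : CF.ST_ES1X) (KK : ST_KK) (AED : ST_AED)
    (QHM : ST_QHM) (INTM : ST_INTM) (APXM : ST_APXM) (LMTM : ST_LMTM) :
    HS.ST_HLS ∧ HS.ST_EBH ∧ HS.ST_KLB :=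
  partA_of HA3 TRE ES1X KK AED QHM INTM APXM LMTM Pool.Agent.Helper24.HY.TRO

end Pool.Agent.Helper50.HY
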