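import Pool.Agent.Helper50.HY.BRG
import Pool.Agent.Helper45.HY.HAC
import Pool.Agent.Helper73.HY.IMS
import Pool.Agent.Helper1.HY.HLS
import Pool.Agent.Helper17.HY.CLS
import Pool.Agent.Helper34.HY.NWT
import Pool.Agent.Helper4.HY.EBH
import Pool.Agent.Helper21.HY.KLG

/-!
# HY: assembly of part A (from TRO)
-/

set_option autoImplicit false

namespace Pool.Agent.Helper50.HY

open MeasureTheory Filter Pool.Agent.Helper95 Pool.Agent.Helper95.PW Pool.Agent.Helper95.LN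

theorem partA_of (HA3 : ST_HA3) (TRE : ST_TRE) (ES1X : CF.ST_ES1X) (KK : ST_KK) (AED : ST_AED)
    (QHM : ST_QHM) (INTM : ST_INTM) (APXM : ST_APXM) (LMTM : ST_LMTM) (TRO : ST_TRO) :
    HS.ST_HLS ∧ HS.ST_EBH ∧ HS.ST_KLB := by
  have HAC : ST_HAC := Pool.Agent.Helper45.HY.HAC
  have IMS : ST_IMS := Pool.Agent.Helper73.HY.IMS
  have HLS : ST_HLS := Pool.Agent.Helper1.HY.HLS IMS HA3
  have CLS : ST_CLS := Pool.Agent.Helper17.HY.CLS IMS HAC
  have NWT : ST_NWT := Pool.Agent.Helper34.HY.NWT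
  have EBH : ST_EBH := Pool.Agent.Helper4.HY.EBH TRE NWT TRO
  have KLG : ST_KLG := Pool.Agent.Helper21.HY.KLG ES1X KK AED CLS QHM INTM
  have B : ST_BRG := BRG HLS EBH
  exact ⟨B.1, B.2, KLC KLG EBH APXM LMTM⟩

end Pool.Agent.Helper50.HY
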