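import Pool.Agent.Helper95.CF.Stmts

/-!
# Hydrogen systems: `τ ≤ T` for well separated nuclei of charge one. Statements, part A
(lower bound of the kinetic energy, sharp local inequalities)
-/

set_option autoImplicit false

namespace Pool.Agent.Helper50.HY

open MeasureTheory Filter Pool.Agent.Helper95 Pool.Agent.Helper95.PW Pool.Agent.Helper95.LN

/-- row HAC (sharp Coulomb inequality in the variable `x k`): expand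
`0 ≤ ∫ |∇_k v + (l / 2) v (x_k - a) / |x_k - a||^2`,
`∫ v ∇_k v · (x_k - a)/|x_k - a| = - ∫ v^2 / |x_k - a|`
(regularize `|y|` as `sqrt (|y|^2 + s^2)`; see the proofs of HA1, HA2, HA3) -/
def ST_HAC : Prop := ∀ (n : ℕ) (k : Fin n) (a : R3) (v : Cf n → ℝ) (l : ℝ),
  ContDiff ℝ (⊤ : ℕ∞) v → HasCompactSupport v → 0 ≤ l →
  Integrable (fun x : Cf n => v x ^ 2 / nr (x k - a)) ∧
  l * ∫ x, v x ^ 2 / nr (x k - a) ≤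
    (∫ x, ∑ i, dv k i v x ^ 2) + l ^ 2 / 4 * ∫ x, v x ^ 2

/-- row IMS: `w j x = χ ((x k - X j) / d) * v x`, `χ = 1` for `nr < 1`, `0` for `nr ≥ 2`, values in
`[0, 1]`; the supports in `x k` are disjoint (`4 d ≤ nr (X i - X j)`);
`∫ |∇_k w_j|^2 = ∫ χ_j^2 |∇_k v|^2 - ∫ χ_j (lap χ_j) v^2` (integration by parts) -/
def ST_IMS : Prop := ∃ C : ℝ, 0 < C ∧ ∀ (n M : ℕ) (k : Fin n) (X : Fin M → R3) (d : ℝ)
  (v : Cf n → ℝ), 0 < d → Sep X d → ContDiff ℝ (⊤ : ℕ∞) v → HasCompactSupport v →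
  ∃ w : Fin M → Cf n → ℝ, (∀ j, ContDiff ℝ (⊤ : ℕ∞) (w j) ∧ HasCompactSupport (w j)) ∧
    (∀ j x, nr (x k - X j) < d → w j x = v x) ∧
    ∑ j, ∫ x, ∑ i, dv k i (w j) x ^ 2 ≤
      (∫ x, ∑ i, dv k i v x ^ 2) + C / d ^ 2 * ∫ x, v x ^ 2 ∧
    ∑ j, ∫ x, w j x ^ 2 ≤ ∫ x, v x ^ 2

/-- row HLS (IMS, HA3): localized Hardy inequality with the sharp constant -/
def ST_HLS : Prop := ∃ C : ℝ, 0 < C ∧ ∀ (n M : ℕ) (X : Fin M → R3) (d : ℝ) (u : Wf n), 0 < d →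
  Sep X d → Sm u → one (near2 X d) u ≤ 4 * (kin u + C / d ^ 2 * (n * PW.sq u))

/-- row CLS (IMS, HAC): localized Coulomb inequality with the sharp constant -/
def ST_CLS : Prop := ∃ C : ℝ, 0 < C ∧ ∀ (n M : ℕ) (X : Fin M → R3) (d l : ℝ) (u : Wf n), 0 < d →
  0 ≤ l → Sep X d → Sm u →
  (∀ s, Integrable (fun x : Cf n => (∑ k, near1 X d (x k)) * u s x ^ 2)) ∧
  l * one (near1 X d) u ≤ kin u + (l ^ 2 / 4 + C / d ^ 2) * (n * PW.sq u)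

/-- row NWT (Newton's theorem): `I t = ∫ q(|y|^2)^2 h(a + t y)`, `h = 1 / nr (· - p)` harmonic near
the ball; `I' t = ∫ ∇Γ(y) · (∇h)(a + t y) = - t ∫ Γ (lap h)(a + t y) = 0`, `Γ(y) = γ(|y|^2) / 2`,
`γ' = q^2`, `γ = 0` from `R^2` on; `I 1 = I 0` -/
def ST_NWT : Prop := ∀ (q : ℝ → ℝ) (R : ℝ), ContDiff ℝ (⊤ : ℕ∞) q → 0 < R →
  (∀ t, R ^ 2 ≤ t → q t = 0) → ∀ a p : R3, R < nr (p - a) →
  ∫ y, q (nr (y - a) ^ 2) ^ 2 / nr (y - p) = (∫ y, q (nr (y - a) ^ 2) ^ 2) / nr (p - a)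

/-- row TRO (trial orbital): a multiple of `χ(|y|/R') ψ`, `ψ = exp (-ρ/2)`, `ρ = sqrt (|y|^2 + s^2)`:
`-lap ψ - ψ/|y| = ψ (-1/4 + s^2/(4 ρ^2) + 1/ρ - 1/|y| + s^2/(2 ρ^3))
≤ ψ (-1/4 + (s^2/4 + s/2) / |y|^2)`; Hardy: `∫ f^2/|y|^2 ≤ 4 ∫ |∇f|^2`;
`∫ |∇(χψ)|^2 = ∫ χ^2 ψ (-lap ψ) + ∫ |∇χ|^2 ψ^2`; last term `≤ C R' exp (-R')`;
`q t = c * exp (- sqrt (t + s^2) / 2) * smoothTransition (1 + 2 t / s^2) * smoothTransition (2 - t / R'^2)`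
is smooth on the whole line -/
def ST_TRO : Prop := ∀ δ : ℝ, 0 < δ → ∃ (q : ℝ → ℝ) (R : ℝ), 0 < R ∧ ContDiff ℝ (⊤ : ℕ∞) q ∧
  (∀ t, R ^ 2 ≤ t → q t = 0) ∧ (∫ y : R3, q (nr y ^ 2) ^ 2) = 1 ∧
  (∑ i, ∫ y, pd i (fun y => q (nr y ^ 2)) y ^ 2) - (∫ y, q (nr y ^ 2) ^ 2 / nr y) ≤ -(1 / 4) + δ

/-- row EBH (TRE, NWT, TRO): `f_k = q (nr (· - X k) ^ 2)`; the Coulomb energy between different
atoms is zero (as Helper89/LN/EB.lean) -/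
def ST_EBH : Prop := ∀ δ : ℝ, 0 < δ → ∃ d0 : ℝ, 0 < d0 ∧ ∀ (n : ℕ) (X : Fin n → R3) (E : ℝ),
  Sep X d0 → LowM n X (fun _ => (1 : ℝ)) E →
  E + nucR X (fun _ => (1 : ℝ)) ≤ (-(1 / 4) + δ) * n

/-- row KLB (ES1X, KK, AED, CLS, QHM, INTM; as Helper21/CF/TLS.lean, `l = 9/10`):
`kin (1 - 10/9) - (9/40) n sq u - small ≤ QM + nucR sq u ≤ (E + nucR) sq u + sqrt (sq u * resM)` -/
def ST_KLB : Prop := ∃ d0 ε : ℝ, 0 < d0 ∧ 0 < ε ∧ ∀ (n M : ℕ) (X : Fin M → R3) (E d : ℝ)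
  (u : Wf n), 1 ≤ n → d0 ≤ d → Nuc n (fun _ : Fin M => (1 : ℝ)) → Sep X d →
  E + nucR X (fun _ => (1 : ℝ)) ≤ -(249 / 1000 * n) → Sm u → 999 / 1000 ≤ PW.sq u →
  PW.sq u ≤ 1001 / 1000 → resM X (fun _ => (1 : ℝ)) E u ≤ ε → 1 / 5 * n ≤ kin u

end Pool.Agent.Helper50.HY
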