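import Pool.Agent.Helper50.HY.Stmts
import Pool.Agent.Helper95.HS.Stmts

/-!
# Hydrogen systems: statements, part A2
-/

set_option autoImplicit false

namespace Pool.Agent.Helper50.HY

open MeasureTheory Filter Pool.Agent.Helper95 Pool.Agent.Helper95.PW Pool.Agent.Helper95.LN

/-- row KLG (ES1X, KK, AED, CLS, QHM, INTM; as Helper21/CF/TLS.lean): let `l = 1 - m`, `m = 2 δ`
(`δ ≤ 1/4` without loss, the claim is trivial for `δ ≥ 1/4`):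
`kin (1 - 1/l) - (l/4) n sq u - small ≤ QM + nucR sq u ≤ -(1/4 - η) n sq u + sqrt (sq u * resM)`,
so `kin ≥ (l/m) (m/4 - O(η)) n = (1/4 - m/4 - O(η/m)) n` -/
def ST_KLG : Prop := ∀ δ : ℝ, 0 < δ → ∃ d0 η : ℝ, 1 ≤ d0 ∧ 0 < η ∧ ∀ (n M : ℕ)
  (X : Fin M → R3) (E d : ℝ) (u : Wf n), 1 ≤ n → d0 ≤ d → Nuc n (fun _ : Fin M => (1 : ℝ)) →
  Sep X d → E + nucR X (fun _ => (1 : ℝ)) ≤ -((1 / 4 - η) * n) → Sm u → 1 - η ≤ PW.sq u →
  PW.sq u ≤ 1 + η → resM X (fun _ => (1 : ℝ)) E u ≤ η → (1 / 4 - δ) * n ≤ kin u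

/-- row BRG (HLS, EBH): the interface of part B -/
def ST_BRG : Prop := HS.ST_HLS ∧ HS.ST_EBH

/-- row KLC (KLG, EBH, APXM, LMTM): the interface of part B, limit `j → ∞` -/
def ST_KLC : Prop := HS.ST_KLB

end Pool.Agent.Helper50.HY
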